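import Mathlib
import Pool.Agent.W2helper39.VF.Down

/-!
# MP_4dacf8_ag: Vojta's inequality for points of bounded complexity on all quasi-projective varieties
# over function fields

`F` is a function field of one variable over `ℂ`, `U = {G = 0, Q ≠ 0}` is an arbitrary quasi-projective
variety over `F` (affine varieties: the equation `x_0 = 1`, `Q = 1`, or a form `Q` of positive degree),
`V' = {H = 0}` is an arbitrary closed subset. Neither is assumed to be isotrivial. The complexity `m` is
fixed. `Pool/Agent/W2helper39/VF/Defs.lean` contains the definitions of the following four conditions.

`GmIn`: all nonconstant maps over the algebraic closure of `F` from the punctured line to `U`, given by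
Laurent polynomials with at most `m` terms, lie in `V'`.

`BoundedHeights`: for each finite extension `L` of `F` and each finite set `S` of places of `L` the heights
of the points `x` of `U` over `L` outside `V'` whose coordinates are sums of `m` elements, each of them
zero or an `S`-unit, and with an `S`-unit `Q (x)`, are bounded (`IsSPoint`).

`VojtaInequality`: the heights of these points, relative to `L`, are at most
`C (max (2 g - 2 + #S, 0) + [L : F])`, for all finite extensions `L` of `F` and all `S`. Here `g` is the
genus of `L`. So the height relative to `F` is at most `C (χ + N)` up to a bounded term, where `N` is
`#S / [L : F]`; `S` can be the set of the places at which the point meets the boundary or which are over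
a fixed finite set of places of `F`, if the summands of the coordinates are units at the other places.

`PowerInequality`: the same for the points whose coordinates are sums of `m` terms `a u`, `a` arbitrary
and `u` such that the orders of its zeros and poles outside `S` are divisible by a number `N ≥ N₀`, with
`Q (x) = q v ≠ 0`, `q` arbitrary and `v` as the `u` (`IsNPoint`): the height is at most
`C (max (2 g - 2 + #S, 0) + [L : F] + ∑ h (a) + h (q))`, all heights relative to `L`.
-/

set_option autoImplicit false

namespace Pool.Agent.Results.MP_4dacf8_ag.BoundedComplexity

open MvPolynomial FF
open Pool.Agent.W2helper39.VF

/-- For every function field `F` over `ℂ`, every quasi-projective variety `U = {G = 0, Q ≠ 0}` over `F`,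
every closed set `V' = {H = 0}` and every `m` the four conditions are equivalent. -/
theorem result (F : Type) [Field F] [Algebra ℂ F] [IsFF ℂ F] (m M : ℕ) (ι κ : Type) [Finite ι]
    (G : ι → MvPolynomial (Fin M) F) (Q : MvPolynomial (Fin M) F)
    (H : κ → MvPolynomial (Fin M) F) :
    List.TFAE [GmIn m G Q H, BoundedHeights m G Q H, VojtaInequality m G Q H,
      PowerInequality m G Q H] :=
  tfae

end Pool.Agent.Results.MP_4dacf8_ag.BoundedComplexity
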