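import Pool.Agent.W2helper39.FV.Trans2
import Pool.Agent.N254.SQ.Num
import Pool.Agent.W602.GT.War

/-!
# MP_4dacf8_ag, Q1: smooth hypersurface complements over function fields with any given affine variety
# as exceptional set

`F` is a function field of one variable over an algebraically closed field `k` of characteristic zero.
Let `U = V(S) ∖ {H = 0}` be **any** affine variety over `F` in `P^n`, `n ≥ 1` (any dimension, any
singularities, in general not isotrivial; `S` a set of forms of degree at most `d`, `d ≥ 3`, and `H` a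
form of degree `e ≥ 1`, `e` a divisor of `d`), and `v : P^n → P^N` the Veronese embedding of degree `d`.
For all `D ≥ D₁(N)` there are `a ≠ 0` in `F`, a linear form `ℓ` and quadratic forms `Q_t` over `F`,
`t < N (2 N + 3)`, such that the hypersurface

`A = a ℓ(y)^(D + 2) + ∑ t, Q_t(y) (y_0 + t y_1 + ⋯ + t^N y_N)^D = 0`

of degree `D + 2 ≥ N + 2` in `P^N` is smooth, `v` embeds `U` as a closed subvariety of its complement
`W = P^N ∖ {A = 0}` (`A(v(x)) = a H(x)^κ` on `V(S)`), and:

* (1) Q1 holds for the pair `(P^N, A)`, with the closed set `Z = v(V(S)) ∪ {A = 0}` and with a constant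
  `C₁(N)` which depends on `N` only: for all points `y` of `W` over finite extensions `L` of `F`
  outside of `v(U)`, `D h(y) ≤ C₁(N) (2 g(L) - 2 + N^(1)_A(y)) + B [L : F]` (heights relative to `L`).
  Here `K + A` is `D + 1 - N` times the hyperplane class, so `h_(K + A)(y) ≤ D h(y)`.
* (2) All closed subvarieties of `W` of positive dimension over algebraically closed extensions of `F`
  which are not contained in `v(U)`, and all those of dimension `> n`, for instance `W` itself, are of
  log general type.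
* (3) The exceptional set of `W` for Vojta's inequality (the intersection of all closed sets `G = 0`
  such that the inequality holds, with some constants, for all algebraic points outside of `G = 0`) is
  that of `U`: the inequality holds on `W` outside of `G = 0` if and only if it holds on `U` outside of
  `G ∘ v = 0`. Likewise the special set (the closure of the union of all closed subvarieties of positive
  dimension over `Ω ⊇ F` which are not of log general type) of `W` is that of `U`.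

Consequently Q1 for all irreducible affine varieties of log general type over `F`, smooth or not, is
equivalent to the following statement on the complements `W = P^N ∖ {A = 0}` of the smooth hypersurfaces
of this form, with `D` in any given infinite set: no irreducible component of positive dimension of the
exceptional set of `W` is of log general type.

The coefficients are in `F`, so neither `U` nor `A` is isotrivial in general. In the hand-ins of the same
name for other problems the coefficients are constants, for maps from curves, entire curves and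
subvarieties over `ℂ`. In the starting files for this problem the exceptional sets are unions of lines
or of orbits of one-parameter groups, or the divisors are generic.

Proof. See `Pool/Agent/W2helper39/FV`. The sum of the terms `-A, a ℓ^(D + 2), Q_t ℓ_t^D` is zero. For a
point over `L` one considers the minimal vanishing subsums of the values. If one of them has more than
`N` terms `Q_t ℓ_t^D`, the height inequality for minimal vanishing sums over `L` bounds the height: the
orders of the terms are divisible by `D` up to the orders of the values of the quadratic forms, and the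
number of zeros of these is at most `2 h(y)` plus a constant times `[L : F]`; the term `A(y)`
contributes its zeros, which are counted without multiplicities. Otherwise there are `2 N + 1` disjoint
vanishing subsums of terms `Q_t ℓ_t^D`, and then, for general coefficients, all quadrics which define
`v(V(S))` vanish at `y`. For subvarieties over `Ω` pluricanonical forms with logarithmic poles on `A = 0`
are constructed from the Wronskians of the circuits, over any algebraically closed field.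
-/

set_option autoImplicit false

namespace Pool.Agent.Results.MP_4dacf8_ag.HypersurfaceComplements

open MvPolynomial FF
open Pool.Agent.W602.GT (LogGeneralType coords)
open Pool.Agent.W603.LV (canDeg)
open Pool.Agent.W603.PV (pht pord)
open Pool.Agent.N254.SQ (Monomials veronese SmoothOver)

section defs

variable {F : Type} [Field F] {n : ℕ}

/-- homogeneous polynomials -/
def IsForm (G : MvPolynomial (Fin (n + 1)) F) : Prop := ∃ e, G.IsHomogeneous e

/-- The places of `L` at which the point `x` meets the hypersurface `H = 0`, `H` of degree `e`; their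
number is the truncated counting function. -/
def meets (k : Type) [Field k] {L : Type} [Field L] [Algebra k L] [Algebra F L] (e : ℕ)
    (H : MvPolynomial (Fin (n + 1)) F) (x : Fin (n + 1) → L) : Set (Place k L) :=
  {P | e * pord P x < P.ord (aeval x H)}

/-- Vojta's inequality holds, with some constants, for all points of `V(S) ∖ {H = 0}` over finite
extensions of `F` outside of `G = 0`; `H` is of degree `e`. -/
def VojtaOff (k : Type) [Field k] [Algebra k F] (S : Set (MvPolynomial (Fin (n + 1)) F)) (e : ℕ)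
    (H G : MvPolynomial (Fin (n + 1)) F) : Prop :=
  ∃ c B : ℕ, ∀ (L : Type) [Field L] [Algebra k L] [Algebra F L] [IsScalarTower k F L]
    [FiniteDimensional F L] (x : Fin (n + 1) → L), x ≠ 0 → (∀ p ∈ S, aeval x p = 0) →
    aeval x H ≠ 0 → aeval x G ≠ 0 →
      pht k x ≤ c * (canDeg k L + (meets k e H x).ncard) + B * Module.finrank F L

/-- `L` is the function field, and `y` the generic point in homogeneous coordinates, of a closed
subvariety of dimension `w` of `P^n` over `Ω`. -/
structure Subvariety (Ω L : Type) [Field Ω] [Field L] [Algebra Ω L] (w : ℕ) (y : Fin (n + 1) → L) :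
    Prop where
  ne : y ≠ 0
  gen : coords Ω y = ⊤
  dim : Algebra.trdeg Ω L = w

/-- The complement of `H = 0`, `H` of degree `e`, in the closed subvariety with generic point `y` is of
log general type; the places with centre in `H = 0` are those with the given inequality. -/
def LogGT (Ω L : Type) [Field Ω] [Field L] [Algebra Ω L] (w : ℕ) (y : Fin (n + 1) → L) (e : ℕ)
    (H : MvPolynomial (Fin (n + 1)) Ω) : Prop :=
  LogGeneralType Ω L w fun P => e * pord P y < P.ord (aeval y H)

/-- The form `G` over `Ω` vanishes on the closed subvarieties over `Ω` of positive dimension of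
`V(S) ∖ {H = 0}` which are not of log general type. -/
def OnSpecial (Ω : Type) [Field Ω] [Algebra F Ω] (S : Set (MvPolynomial (Fin (n + 1)) F)) (e : ℕ)
    (H : MvPolynomial (Fin (n + 1)) F) (G : MvPolynomial (Fin (n + 1)) Ω) : Prop :=
  ∀ (L : Type) [Field L] [Algebra Ω L] (w : ℕ) (y : Fin (n + 1) → L), 1 ≤ w →
    Subvariety Ω L w y → (∀ p ∈ S, aeval y (map (algebraMap F Ω) p) = 0) →
    aeval y (map (algebraMap F Ω) H) ≠ 0 → ¬ LogGT Ω L w y e (map (algebraMap F Ω) H) →
    aeval y G = 0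

/-- the forms over `F` which vanish at `y` -/
def Eqs {K : Type} [Field K] [Algebra F K] (y : Fin (n + 1) → K) :
    Set (MvPolynomial (Fin (n + 1)) F) := {p | IsForm p ∧ aeval y p = 0}

/-- Q1 for all irreducible affine varieties over `F`, of positive dimension and of log general type: the
inequality holds outside of a proper closed subset `G = 0`. -/
def AffineVojta (k F : Type) [Field k] [Field F] [Algebra k F] : Prop :=
  ∀ (n e : ℕ) (H : MvPolynomial (Fin (n + 1)) F), 1 ≤ e → H.IsHomogeneous e →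
    ∀ (K : Type) [Field K] [Algebra F K] (w : ℕ) (y : Fin (n + 1) → K), 1 ≤ w →
      Subvariety F K w y → aeval y H ≠ 0 → LogGT F K w y e H →
      ∃ G : MvPolynomial (Fin (n + 1)) F, IsForm G ∧ aeval y G ≠ 0 ∧ VojtaOff k (Eqs y) e H G

/-- The closed subvariety with generic point `y` is an irreducible component of the exceptional set of
`P^n ∖ {A = 0}`: it is contained in this set, and, on a neighbourhood `H' ≠ 0` of its generic point, it
contains this set. -/
def IsComponent (k : Type) [Field k] [Algebra k F] (e : ℕ) (A : MvPolynomial (Fin (n + 1)) F)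
    {K : Type} [Field K] [Algebra F K] (y : Fin (n + 1) → K) : Prop :=
  (∀ G, IsForm G → VojtaOff k ∅ e A G → aeval y G = 0) ∧
    ∃ H', IsForm H' ∧ aeval y H' ≠ 0 ∧ ∀ G, IsForm G → aeval y G = 0 → VojtaOff k ∅ e A (G * H')

/-- No irreducible component of positive dimension of the exceptional set of `P^n ∖ {A = 0}` is of log
general type. -/
def NoComponent (k : Type) [Field k] [Algebra k F] (e : ℕ) (A : MvPolynomial (Fin (n + 1)) F) :
    Prop :=
  ∀ (K : Type) [Field K] [Algebra F K] (w : ℕ) (y : Fin (n + 1) → K), 1 ≤ w →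
    Subvariety F K w y → aeval y A ≠ 0 → LogGT F K w y e A → ¬ IsComponent k e A y

/-- the form `a ℓ ^ (D + 2) + ∑ t, Q_t (y_0 + t y_1 + ⋯ + t ^ N y_N) ^ D` -/
noncomputable def boundaryForm {N M : ℕ} (D : ℕ) (a : F) (ℓ : MvPolynomial (Fin (N + 1)) F)
    (Q : Fin M → MvPolynomial (Fin (N + 1)) F) : MvPolynomial (Fin (N + 1)) F :=
  C a * ℓ ^ (D + 2) +
    ∑ t : Fin M, Q t * (∑ j : Fin (N + 1), C (((t : ℕ) : F) ^ (j : ℕ)) * X j) ^ D

variable {N : ℕ} (m : Fin (N + 1) → Fin (n + 1) → ℕ)

/-- the form `G ∘ v` -/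
noncomputable def pull {R : Type} [Field R] (G : MvPolynomial (Fin (N + 1)) R) :
    MvPolynomial (Fin (n + 1)) R :=
  aeval (fun a => ∏ j, (X j : MvPolynomial (Fin (n + 1)) R) ^ m a j) G

variable (S : Set (MvPolynomial (Fin (n + 1)) F)) (A : MvPolynomial (Fin (N + 1)) F)

/-- (1) Vojta's inequality for the points of `P^N ∖ {A = 0}` outside of `v(V(S))`, `A` of degree
`D + 2`, with the constant `C₁` -/
def HeightInequality (k : Type) [Field k] [Algebra k F] (D C₁ : ℕ) : Prop :=
  ∃ B : ℕ, ∀ (L : Type) [Field L] [Algebra k L] [Algebra F L] [IsScalarTower k F L]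
    [FiniteDimensional F L] (y : Fin (N + 1) → L), y ≠ 0 → aeval y A ≠ 0 →
    D * pht k y ≤ C₁ * (canDeg k L + (meets k (D + 2) A y).ncard) + B * Module.finrank F L ∨
      ∃ (x : Fin (n + 1) → L) (c : L), x ≠ 0 ∧ c ≠ 0 ∧ (∀ p ∈ S, aeval x p = 0) ∧
        y = c • veronese m x

/-- (2) the closed subvarieties of `P^N ∖ {A = 0}` of positive dimension over algebraically closed
extensions of `F` are of log general type, or of dimension at most `n` and contained in `v(V(S))` -/
def SubvarietiesLog (e : ℕ) : Prop :=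
  ∀ (Ω : Type) [Field Ω] [Algebra F Ω] [IsAlgClosed Ω] (L : Type) [Field L] [Algebra Ω L]
    (w : ℕ) (y : Fin (N + 1) → L), 1 ≤ w → Subvariety Ω L w y →
    aeval y (map (algebraMap F Ω) A) ≠ 0 → LogGT Ω L w y e (map (algebraMap F Ω) A) ∨
      w ≤ n ∧ ∃ (x : Fin (n + 1) → L) (c : L), x ≠ 0 ∧ c ≠ 0 ∧
        (∀ p ∈ S, aeval x (map (algebraMap F Ω) p) = 0) ∧ y = c • veronese m x

end defs

section proof

open Pool.Agent.N254.SQ (Mon ver t_num pullR reduce zb_pull)
open Pool.Agent.W2helper39.LC (formR formR_hom Mn)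
open Pool.Agent.W2helper39.FV (consF transF trans_spec canDeg_lower bdry bdry_iff coords_verK ver_ne)

/-- generic points of positive dimension -/
theorem one_le {Ω L : Type} [Field Ω] [Field L] [Algebra Ω L] {n w : ℕ} {y : Fin (n + 1) → L}
    (hw : 1 ≤ w) (h : Subvariety Ω L w y) : 1 ≤ n := by
  by_contra hn
  have hn0 : n = 0 := by omega
  subst hn0
  have h1 : coords Ω y ≤ ⊥ := by
    unfold coords
    rw [IntermediateField.adjoin_le_iff]
    rintro z ⟨i, j, hj, rfl⟩
    have : i = j := Fin.ext (by omega)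
    rw [this, div_self hj]
    exact one_mem _
  rw [h.gen, top_le_iff] at h1
  have h2 : Algebra.IsAlgebraic Ω L := ⟨fun z => by
    have h3 : z ∈ (⊥ : IntermediateField Ω L) := by
      rw [h1]
      exact IntermediateField.mem_top
    obtain ⟨c, hc⟩ := IntermediateField.mem_bot.1 h3
    rw [← hc]
    exact isAlgebraic_algebraMap c⟩
  have h3 := h.dim
  rw [_root_.trdeg_eq_zero] at h3
  have : w = 0 := by exact_mod_cast h3.symm
  omega

/-- a larger slope -/
theorem mono {k F : Type} [Field k] [IsAlgClosed k] [CharZero k] [Field F] [Algebra k F] [IsFF k F]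
    {n e : ℕ} {H : MvPolynomial (Fin (n + 1)) F} {Bc : ℕ}
    (hBc : ∀ (L : Type) [Field L] [Algebra k L] [Algebra F L] [IsScalarTower k F L]
      [FiniteDimensional F L], - (Bc * Module.finrank F L : ℤ) ≤ canDeg k L)
    {c B c' B' : ℕ} (hc : c ≤ c') (hB : B ≤ B') {L : Type} [Field L] [Algebra k L] [Algebra F L]
    [IsScalarTower k F L] [FiniteDimensional F L] {x : Fin (n + 1) → L}
    (h : pht k x ≤ c * (canDeg k L + (meets k e H x).ncard) + B * Module.finrank F L) :
    pht k x ≤ c' * (canDeg k L + (meets k e H x).ncard) +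
      (B' + c' * Bc : ℕ) * Module.finrank F L := by
  have h1 := hBc L
  obtain ⟨f, hf⟩ : ∃ f : ℤ, f = Module.finrank F L := ⟨_, rfl⟩
  have hf0 : 0 ≤ f := by rw [hf]; positivity
  rw [← hf] at h1 h ⊢
  have h2 : 0 ≤ canDeg k L + (meets k e H x).ncard + Bc * f := by
    have : (0 : ℤ) ≤ (meets k e H x).ncard := by positivity
    linarith
  have hc' : (c : ℤ) ≤ c' := by exact_mod_cast hc
  have hB' : (B : ℤ) ≤ B' := by exact_mod_cast hB
  have h3 := mul_le_mul_of_nonneg_right hc' h2
  have h4 := mul_le_mul_of_nonneg_right hB' hf0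
  have h5 : 0 ≤ (c : ℤ) * (Bc * f) := by positivity
  push_cast
  linarith

/-- the empty set of exceptional points -/
theorem off_trivial {k F : Type} [Field k] [Field F] [Algebra k F] {n e : ℕ}
    {S : Set (MvPolynomial (Fin (n + 1)) F)} {H G : MvPolynomial (Fin (n + 1)) F}
    (h : ∀ (L : Type) [Field L] [Algebra F L] (x : Fin (n + 1) → L), (∀ p ∈ S, aeval x p = 0) →
      aeval x G = 0) : VojtaOff k S e H G :=
  ⟨0, 0, fun L _ _ _ _ _ x _ hxS _ hxG => absurd (h L x hxS) hxG⟩

/-- Q1 for the closures of the components -/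
theorem forward {k F : Type} [Field k] [IsAlgClosed k] [CharZero k] [Field F] [Algebra k F]
    [IsFF k F] (hQ : AffineVojta k F) {N e : ℕ} (he : 1 ≤ e) {A : MvPolynomial (Fin (N + 1)) F}
    (hA : A.IsHomogeneous e) : NoComponent k e A := by
  classical
  intro K _ _ w y hw hy hyA hlog hcomp
  obtain ⟨G, ⟨g, hG⟩, hGy, cG, BG, hGV⟩ := hQ N e A he hA K w y hw hy hyA hlog
  obtain ⟨hc1, H', ⟨h', hH'⟩, hH'y, hc2⟩ := hcomp
  obtain ⟨Bc, hBc⟩ := canDeg_lower k F
  obtain ⟨T, hT, hTE⟩ := reduce (Eqs (F := F) y)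
  have hT2 : ∀ p : T, ∃ c B : ℕ, ∀ (L : Type) [Field L] [Algebra k L] [Algebra F L]
      [IsScalarTower k F L] [FiniteDimensional F L] (x : Fin (N + 1) → L), x ≠ 0 →
      (∀ p ∈ (∅ : Set (MvPolynomial (Fin (N + 1)) F)), aeval x p = 0) →
      aeval x A ≠ 0 → aeval x ((p : MvPolynomial (Fin (N + 1)) F) * H') ≠ 0 →
      pht k x ≤ c * (canDeg k L + (meets k e A x).ncard) + B * Module.finrank F L := fun p =>
    hc2 p (hT p.2).1 (hT p.2).2
  choose c B hcB using hT2
  have key : VojtaOff k ∅ e A (G * H') := by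
    refine ⟨cG + ∑ p, c p, (BG + ∑ p, B p) + (cG + ∑ p, c p) * Bc,
      fun L _ _ _ _ _ x hx hx0 hxA hxG => ?_⟩
    rw [map_mul] at hxG
    by_cases hall : ∀ p : T, aeval x (p : MvPolynomial (Fin (N + 1)) F) = 0
    · have h1 : ∀ p ∈ Eqs (F := F) y, aeval x p = 0 := by
        intro p hp
        have h2 := hTE L (algebraMap F L) x (fun p hp => by
          rw [eval_map]
          exact hall ⟨p, hp⟩) p hp
        rw [eval_map] at h2
        exact h2
      exact mono hBc (Nat.le_add_right _ _) (Nat.le_add_right _ _)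
        (hGV L x hx h1 hxA (left_ne_zero_of_mul hxG))
    · push Not at hall
      obtain ⟨p, hp⟩ := hall
      have h1 := hcB p L x hx hx0 hxA (by
        rw [map_mul]
        exact mul_ne_zero hp (right_ne_zero_of_mul hxG))
      exact mono hBc ((Finset.single_le_sum (f := c) (fun _ _ => Nat.zero_le _)
        (Finset.mem_univ p)).trans (Nat.le_add_left _ _))
        ((Finset.single_le_sum (f := B) (fun _ _ => Nat.zero_le _)
        (Finset.mem_univ p)).trans (Nat.le_add_left _ _)) h1
  have h1 := hc1 (G * H') ⟨_, hG.mul hH'⟩ key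
  rw [map_mul] at h1
  exact mul_ne_zero hGy hH'y h1

/-- the properties of the construction -/
def ConsAll (D₁ C₁ : ℕ → ℕ) : Prop :=
  ∀ N : ℕ, 1 ≤ N → ∀ (n d : ℕ), 1 ≤ n → 3 ≤ d →
    ∀ (m : Fin (N + 1) → Fin (n + 1) → ℕ), Mon n N d m → 2 * n < N →
      ∀ D, D₁ N ≤ D → ∀ (F : Type) [Field F] [CharZero F] (S : Set (MvPolynomial (Fin (n + 1)) F)),
        (∀ p ∈ S, ∃ e ≤ d, p.IsHomogeneous e) →
        ∀ (e : ℕ) (H : MvPolynomial (Fin (n + 1)) F), 1 ≤ e → e ∣ d → H.IsHomogeneous e →
        ∃ (a : F) (ℓ : MvPolynomial (Fin (N + 1)) F)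
          (Q : Fin (N * (2 * N + 3)) → MvPolynomial (Fin (N + 1)) F), a ≠ 0 ∧ ℓ.IsHomogeneous 1 ∧
          (∀ t, (Q t).IsHomogeneous 2) ∧ SmoothOver (boundaryForm D a ℓ Q) ∧
          (∃ κ, 1 ≤ κ ∧ e * κ = d * (D + 2) ∧ ∀ (Ω : Type) [Field Ω] [Algebra F Ω]
            (x : Fin (n + 1) → Ω), (∀ p ∈ S, aeval x p = 0) →
            aeval (veronese m x) (boundaryForm D a ℓ Q) = algebraMap F Ω a * aeval x H ^ κ) ∧
          (∀ (k : Type) [Field k] [IsAlgClosed k] [CharZero k] [Algebra k F] [IsFF k F],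
            HeightInequality m S (boundaryForm D a ℓ Q) k D (C₁ N)) ∧
          SubvarietiesLog m S (boundaryForm D a ℓ Q) (D + 2)

theorem consAll : ∃ D₁ C₁ : ℕ → ℕ, (∀ N, N ≤ D₁ N ∧ 1 ≤ D₁ N) ∧ ConsAll D₁ C₁ := by
  classical
  choose D₀ C₀ h0 using consF
  refine ⟨fun N => if h : 1 ≤ N then max (D₀ N h) N else 1,
    fun N => if h : 1 ≤ N then C₀ N h else 0, fun N => ?_, fun N hN => ?_⟩
  · by_cases h : 1 ≤ N
    · simp only [h, dif_pos]
      exact ⟨le_max_right _ _, h.trans (le_max_right _ _)⟩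
    · simp only [h, dif_neg, not_false_iff]
      omega
  · simp only [hN, dif_pos]
    intro n d hn hd m hm hNn D hD F _ _ S hS e H he hed hH
    obtain ⟨a, ℓ, Q, ha, hℓ, hQ, hsm, hAH, hpts, hsub⟩ := h0 N hN n d hn hd m hm hNn D
      ((le_max_left _ _).trans hD) F S hS e H he hed hH
    refine ⟨a, ℓ, Q, ha, hℓ, hQ, hsm, hAH, fun k _ _ _ _ _ => hpts k,
      fun Ω _ _ _ L _ _ w y hw hy hA => ?_⟩
    rcases hsub Ω L w y hw hy.ne hy.gen hy.dim hA with h | ⟨x, c, hx, hc, hxS, rfl⟩
    · exact Or.inl h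
    · refine Or.inr ⟨Pool.Agent.W602.GT.dim_le (k := Ω) hx ⟨fun z => ?_⟩ hy.dim, x, c, hx, hc, hxS,
        rfl⟩
      have h1 := hy.gen
      rw [coords_verK (Ω := Ω) hm (by omega) x hx c hc] at h1
      have h2 : z ∈ coords Ω x := by
        rw [h1]
        exact IntermediateField.mem_top
      exact isAlgebraic_algebraMap (⟨z, h2⟩ : coords Ω x)

theorem boundary_hom {F : Type} [Field F] {N M D : ℕ} {a : F} {ℓ : MvPolynomial (Fin (N + 1)) F}
    {Q : Fin M → MvPolynomial (Fin (N + 1)) F} (hℓ : ℓ.IsHomogeneous 1)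
    (hQ : ∀ t, (Q t).IsHomogeneous 2) : (boundaryForm D a ℓ Q).IsHomogeneous (D + 2) :=
  formR_hom D hℓ hQ

theorem pull_form {R : Type} [Field R] {n N d e : ℕ} {m : Fin (N + 1) → Fin (n + 1) → ℕ}
    (hm : Mon n N d m) {G : MvPolynomial (Fin (N + 1)) R} (hG : G.IsHomogeneous e) :
    (pull m G).IsHomogeneous (d * e) := by
  refine hG.aeval _ fun a => ?_
  have h1 : (∏ j, (X j : MvPolynomial (Fin (n + 1)) R) ^ m a j).IsHomogeneous (∑ j, 1 * m a j) :=
    IsHomogeneous.prod _ _ _ fun j _ => (isHomogeneous_X R j).pow _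
  simp only [one_mul] at h1
  rwa [hm.deg] at h1

/-- from the hypersurface complements to the affine varieties -/
theorem backward {D₁ C₁ : ℕ → ℕ} (HC : ConsAll D₁ C₁) (hD₁ : ∀ N, 1 ≤ D₁ N) {k F : Type} [Field k]
    [IsAlgClosed k] [CharZero k] [Field F] [Algebra k F] [IsFF k F] {E : Set ℕ} (hE : E.Infinite)
    (h : ∀ (N D : ℕ) (a : F) (ℓ : MvPolynomial (Fin (N + 1)) F)
      (Q : Fin (N * (2 * N + 3)) → MvPolynomial (Fin (N + 1)) F), D ∈ E → D₁ N ≤ D → a ≠ 0 →
      ℓ.IsHomogeneous 1 → (∀ t, (Q t).IsHomogeneous 2) →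
      SmoothOver (boundaryForm D a ℓ Q) → NoComponent k (D + 2) (boundaryForm D a ℓ Q)) :
    AffineVojta k F := by
  classical
  have hcF : CharZero F := charZero_of_injective_algebraMap (algebraMap k F).injective
  intro n e H he hH K _ _ w y hw hy hyH hlog
  have hn := one_le hw hy
  obtain ⟨T, hT, hTE⟩ := reduce (Eqs (F := F) y)
  have hTE' : ∀ (L : Type) [Field L] [Algebra F L] (x : Fin (n + 1) → L),
      (∀ p ∈ (T : Set (MvPolynomial (Fin (n + 1)) F)), aeval x p = 0) →
      ∀ p ∈ Eqs (F := F) y, aeval x p = 0 := by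
    intro L _ _ x hx p hp
    have h2 := hTE L (algebraMap F L) x (fun p hp => by
      rw [eval_map]
      exact hx p hp) p hp
    rw [eval_map] at h2
    exact h2
  have hT2 : ∀ p : T, ∃ g, (p : MvPolynomial (Fin (n + 1)) F).IsHomogeneous g := fun p =>
    (hT p.2).1
  choose g hg using hT2
  obtain ⟨b, hb⟩ : ∃ b, b = ∑ p, g p := ⟨_, rfl⟩
  obtain ⟨d, hd⟩ : ∃ d, d = e * (b + 3) := ⟨_, rfl⟩
  have hbd : b + 3 ≤ d := by
    rw [hd]
    nlinarith
  have hd1 : 1 ≤ d := by omega
  obtain ⟨N, m, hm, hN⟩ := t_num n d hn (by omega)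
  obtain ⟨D, hDE, hD⟩ := hE.exists_gt (D₁ N)
  have hDD : D₁ N ≤ D := le_of_lt hD
  obtain ⟨a, ℓ, Q, ha, hℓ, hQ, hsm, ⟨κ, hκ, hκd, hAH⟩, hpts, -⟩ := HC N (by omega) n d hn
    (by omega) m hm hN D hDD F T (fun p hp => ⟨g ⟨p, hp⟩, by
      have h1 : g ⟨p, hp⟩ ≤ b := by
        rw [hb]
        exact Finset.single_le_sum (f := g) (fun _ _ => Nat.zero_le _) (Finset.mem_univ _)
      omega, hg ⟨p, hp⟩⟩) e H he ⟨_, hd⟩ hH
  have hAhom := boundary_hom (D := D) (a := a) hℓ hQ
  obtain ⟨A, hA⟩ : ∃ A, A = boundaryForm D a ℓ Q := ⟨_, rfl⟩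
  have hno := h N D a ℓ Q hDE hDD ha hℓ hQ hsm
  rw [← hA] at hAhom hAH hno
  have hpts' := hpts k
  rw [← hA] at hpts'
  have htr := fun {G : MvPolynomial (Fin (N + 1)) F} {g' : ℕ} (hG : G.IsHomogeneous g') =>
    transF (k := k) hm hd1 hAhom ha hκ hκd hAH ((hD₁ N).trans hDD) hpts' hG
  have hyT : ∀ p ∈ (T : Set (MvPolynomial (Fin (n + 1)) F)), aeval y p = 0 := fun p hp =>
    (hT hp).2
  have hev : ∀ G : MvPolynomial (Fin (N + 1)) F,
      aeval y (pull m G) = aeval (veronese m y) G := fun G => zb_pull (algebraMap F K) m G y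
  obtain ⟨z, hz⟩ : ∃ z, z = veronese m y := ⟨_, rfl⟩
  have hzA : aeval z A ≠ 0 := by
    rw [hz, hAH K y hyT]
    exact mul_ne_zero ((map_ne_zero _).2 ha) (pow_ne_zero _ hyH)
  have hzs : Subvariety F K w z := by
    refine ⟨by rw [hz]; exact ver_ne hm hy.ne, ?_, hy.dim⟩
    have h1 := coords_verK (Ω := F) hm hd1 y hy.ne 1 one_ne_zero
    rw [one_smul] at h1
    rw [hz, ← hy.gen]
    exact h1
  have hzlog : LogGT F K w z (D + 2) A := by
    have h1 : (fun P : Place F K => ((D + 2 : ℕ) : ℤ) * pord P z < P.ord (aeval z A)) =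
        fun P : Place F K => (e : ℤ) * pord P y < P.ord (aeval y H) := by
      funext P
      have h2 := bdry_iff (κ := κ) (a := a) hm hAhom ha hκ hκd hy.ne (one_ne_zero (α := K)) hyH
        (hAH K y hyT) P
      rw [one_smul] at h2
      rw [hz]
      exact propext h2
    unfold LogGT
    rw [h1]
    exact hlog
  by_cases hex : ∃ G : MvPolynomial (Fin (N + 1)) F, IsForm G ∧ VojtaOff k ∅ (D + 2) A G ∧
      aeval z G ≠ 0
  · obtain ⟨G, ⟨g', hG⟩, hGV, hGz⟩ := hex
    refine ⟨pull m G, ⟨_, pull_form hm hG⟩, by rw [hev, ← hz]; exact hGz, ?_⟩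
    obtain ⟨c, B, h2⟩ := (htr hG).1 hGV
    exact ⟨c, B, fun L _ _ _ _ _ x hx hxS hxH hxG => h2 L x hx (fun p hp => hxS p (hT hp)) hxH hxG⟩
  · exfalso
    push Not at hex
    refine hno K w z hw hzs hzA hzlog ⟨fun G hG hV => hex G hG hV, 1,
      ⟨0, isHomogeneous_one _ _⟩, by rw [map_one]; exact one_ne_zero, fun G hG hGz => ?_⟩
    obtain ⟨g', hG⟩ := hG
    rw [mul_one]
    refine (htr hG).2 (off_trivial fun L _ _ x hxS => ?_)
    refine hTE' L x hxS _ ⟨⟨_, pull_form hm hG⟩, ?_⟩
    change aeval y (pull m G) = 0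
    rw [hev, ← hz]
    exact hGz

end proof

theorem result : ∃ D₁ C₁ : ℕ → ℕ, (∀ N, N ≤ D₁ N) ∧
    (∀ n d : ℕ, 1 ≤ n → 3 ≤ d → ∃ (N : ℕ) (m : Fin (N + 1) → Fin (n + 1) → ℕ),
      Monomials n N d m ∧ 2 * n < N ∧ ∀ (k F : Type) [Field k] [IsAlgClosed k] [CharZero k]
        [Field F] [Algebra k F] [IsFF k F] (D : ℕ), D₁ N ≤ D →
        ∀ S : Set (MvPolynomial (Fin (n + 1)) F), (∀ p ∈ S, ∃ e ≤ d, p.IsHomogeneous e) →
        ∀ (e : ℕ) (H : MvPolynomial (Fin (n + 1)) F), 1 ≤ e → e ∣ d → H.IsHomogeneous e →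
        ∃ (a : F) (ℓ : MvPolynomial (Fin (N + 1)) F)
          (Q : Fin (N * (2 * N + 3)) → MvPolynomial (Fin (N + 1)) F), a ≠ 0 ∧ ℓ.IsHomogeneous 1 ∧
          (∀ t, (Q t).IsHomogeneous 2) ∧ SmoothOver (boundaryForm D a ℓ Q) ∧
          (∃ κ, 1 ≤ κ ∧ e * κ = d * (D + 2) ∧ ∀ (Ω : Type) [Field Ω] [Algebra F Ω]
            (x : Fin (n + 1) → Ω), (∀ p ∈ S, aeval x p = 0) →
            aeval (veronese m x) (boundaryForm D a ℓ Q) = algebraMap F Ω a * aeval x H ^ κ) ∧
          HeightInequality m S (boundaryForm D a ℓ Q) k D (C₁ N) ∧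
          SubvarietiesLog m S (boundaryForm D a ℓ Q) (D + 2) ∧
          (∀ G : MvPolynomial (Fin (N + 1)) F, IsForm G →
            (VojtaOff k ∅ (D + 2) (boundaryForm D a ℓ Q) G ↔ VojtaOff k S e H (pull m G))) ∧
          ∀ (Ω : Type) [Field Ω] [Algebra F Ω] [IsAlgClosed Ω]
            (G : MvPolynomial (Fin (N + 1)) Ω), IsForm G →
            (OnSpecial Ω ∅ (D + 2) (boundaryForm D a ℓ Q) G ↔ OnSpecial Ω S e H (pull m G))) ∧
    ∀ (k F : Type) [Field k] [IsAlgClosed k] [CharZero k] [Field F] [Algebra k F] [IsFF k F]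
      (E : Set ℕ), E.Infinite →
      (AffineVojta k F ↔
        ∀ (N D : ℕ) (a : F) (ℓ : MvPolynomial (Fin (N + 1)) F)
          (Q : Fin (N * (2 * N + 3)) → MvPolynomial (Fin (N + 1)) F), D ∈ E → D₁ N ≤ D → a ≠ 0 →
          ℓ.IsHomogeneous 1 → (∀ t, (Q t).IsHomogeneous 2) →
          SmoothOver (boundaryForm D a ℓ Q) → NoComponent k (D + 2) (boundaryForm D a ℓ Q)) := by
  obtain ⟨D₁, C₁, hD₁, HC⟩ := consAll
  refine ⟨D₁, C₁, fun N => (hD₁ N).1, fun n d hn hd => ?_, fun k F _ _ _ _ _ _ E hE =>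
    ⟨fun hQ N D a ℓ Q _ _ _ hℓ hQ2 _ => forward hQ (by omega) (boundary_hom hℓ hQ2),
      fun h => backward HC (fun N => (hD₁ N).2) hE h⟩⟩
  obtain ⟨N, m, hm, hN⟩ := Pool.Agent.N254.SQ.t_num n d hn hd
  refine ⟨N, m, ⟨hm.deg, hm.inj, hm.surj⟩, hN, ?_⟩
  intro k F _ _ _ _ _ _ D hD S hS e H he hed hH
  have hcF : CharZero F := charZero_of_injective_algebraMap (algebraMap k F).injective
  obtain ⟨a, ℓ, Q, ha, hℓ, hQ, hsm, ⟨κ, hκ, hκd, hAH⟩, hpts, hsub⟩ := HC N (by omega) n d hn
    hd m hm hN D hD F S hS e H he hed hH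
  have hd1 : 1 ≤ d := by omega
  refine ⟨a, ℓ, Q, ha, hℓ, hQ, hsm, ⟨κ, hκ, hκd, hAH⟩, hpts k, hsub, ?_, ?_⟩
  · rintro G ⟨g, hG⟩
    exact Pool.Agent.W2helper39.FV.transF (k := k) hm hd1 (boundary_hom hℓ hQ) ha hκ hκd hAH
      ((hD₁ N).2.trans hD) (hpts k) hG
  · rintro Ω _ _ _ G ⟨g, hG⟩
    have h1 := Pool.Agent.W2helper39.FV.trans_spec hm hd1 (boundary_hom hℓ hQ) ha hκ hκd hAH
      (fun Ω _ _ _ L _ _ w y hw hy0 hgen hdim hA =>
        (hsub Ω L w y hw ⟨hy0, hgen, hdim⟩ hA).imp id fun h => h.2) Ω hG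
    constructor
    · intro h L _ _ w y hw hy hyS hyH hyL
      exact h1.1 (fun L _ _ w y hw hy0 hgen hdim hyS hyA hyl =>
        h L w y hw ⟨hy0, hgen, hdim⟩ hyS hyA hyl) L w y hw hy.ne hy.gen hy.dim hyS hyH hyL
    · intro h L _ _ w y hw hy hyS hyA hyL
      exact h1.2 (fun L _ _ w y hw hy0 hgen hdim hyS hyA hyl =>
        h L w y hw ⟨hy0, hgen, hdim⟩ hyS hyA hyl) L w y hw hy.ne hy.gen hy.dim hyS hyA hyL

end Pool.Agent.Results.MP_4dacf8_ag.HypersurfaceComplements
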