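import Pool.Agent.W2helper39.FV.PAll
import Pool.Agent.N254.SQ.Num
import Pool.Agent.W602.GT.War

/-!
# MP_4dacf8_ag, Q1: smooth projective hypersurfaces over function fields with any given projective variety
# as exceptional set

`F` is a function field of one variable over an algebraically closed field `k` of characteristic zero.
Let `X = V(S)` be **any** projective variety over `F` in `P^n`, `n ≥ 1` (any dimension, any
singularities, in general not isotrivial; `S` a set of forms of degree at most `d`, `d ≥ 3`), and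
`v : P^n → P^N` the Veronese embedding of degree `d`. For all `D ≥ D₁(N)` there are quadratic forms `Q_t`
over `F`, `t < N (2 N + 1)`, such that the hypersurface `Y` with the equation

`A = ∑ t, Q_t(y) (y_0 + t y_1 + ⋯ + t^N y_N)^D = 0`

of degree `D + 2 ≥ N + 2` in `P^N` is smooth and contains `v(X)`, and:

* (1) Q1 holds for `Y` (and for all pairs `(Y, D_Y)`), with the closed set `Z = v(X)` (and `D_Y`) and
  with a constant `C₁(N)` which depends on `N` only: for all points `y` of `Y` over finite extensions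
  `L` of `F` outside of `v(X)`, `D h(y) ≤ C₁(N) (2 g(L) - 2) + B [L : F]` (heights relative to `L`).
  Here `K_Y` is `D + 1 - N` times the hyperplane class, so `h_K(y) ≤ D h(y)`.
* (2) All closed subvarieties of `Y` of positive dimension over algebraically closed extensions of `F`
  which are not contained in `v(X)`, and all those of dimension `> n`, are of general type.
* (3) For every closed subset `V(T)` of `P^N`, `T` finitely many forms over `F`, the exceptional set of
  `Y ∖ V(T)` for Vojta's inequality (the intersection of all closed sets `G = 0` such that the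
  inequality, with the truncated counting function for `V(T)` and some constants, holds for all
  algebraic points outside of `G = 0`) is that of `X ∖ V(T ∘ v)`: the inequality holds on `Y ∖ V(T)`
  outside of `G = 0` if and only if it holds on `X ∖ V(T ∘ v)` outside of `G ∘ v = 0`. Likewise for the
  special set, the closure of the union of all closed subvarieties of positive dimension over
  `Ω ⊇ F` which are not of log general type.

Consequently Q1 for **all** irreducible quasi-projective varieties `V ∖ V(T)` of log general type over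
`F`, projective or not, smooth or not, is equivalent to the following statement on the open subsets
`Y ∖ V(T)` of the smooth projective hypersurfaces `Y` of this form, with `D` in any given infinite set:
no irreducible component of positive dimension of the exceptional set of `Y ∖ V(T)` is of log general
type.

The coefficients are in `F`, so neither `X` nor `Y` is isotrivial in general. In the starting files
`SmoothHypersurfacesSuffice` for other problems the coefficients are constants, and the height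
inequality is proved for the curves over `ℂ`. The complements of hypersurfaces in `P^N`, and affine `X`, are
treated in `HypersurfaceComplements`; there the boundary is a part of the construction.

Proof. See `Pool/Agent/W2helper39/FV` (`PCons`, `PAll`). For a point `y` of `Y` over `L` one considers
the minimal vanishing subsums of the sum of the terms `Q_t ℓ_t^D`. If one of them has more than `N`
terms, the height inequality for minimal vanishing sums over `L` bounds the height: the orders of the
terms are divisible by `D` up to the orders of the values of the quadratic forms, and the number of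
zeros of these is at most `2 h(y)` plus a constant times `[L : F]`. Otherwise there are `2 N + 1`
disjoint vanishing subsums, and then, for general coefficients, all quadrics which define `v(X)` vanish
at `y`. For subvarieties over `Ω` pluricanonical forms are constructed from the Wronskians of the
circuits, over any algebraically closed field.
-/

set_option autoImplicit false

namespace Pool.Agent.Results.MP_4dacf8_ag.SmoothHypersurfaces

open MvPolynomial FF
open Pool.Agent.W602.GT (LogGeneralType coords)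
open Pool.Agent.W603.LV (canDeg)
open Pool.Agent.W603.PV (pht pord)
open Pool.Agent.N254.SQ (Monomials veronese SmoothOver powerFormOver)

section defs

variable {F : Type} [Field F] {n r : ℕ}

/-- homogeneous polynomials -/
def IsForm (G : MvPolynomial (Fin (n + 1)) F) : Prop := ∃ e, G.IsHomogeneous e

/-- The point `x` over the field `E` meets `V(T)` at the place `P`; here `T j` is a form of degree
`e j`. -/
def Meets {K E : Type} [Field K] [Field E] [Algebra F E] [Algebra K E] (e : Fin r → ℕ)
    (T : Fin r → MvPolynomial (Fin (n + 1)) F) (x : Fin (n + 1) → E) (P : Place K E) : Prop :=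
  ∀ j, aeval x (T j) ≠ 0 → e j * pord P x < P.ord (aeval x (T j))

/-- Vojta's inequality holds, with some constants, for all points of `V(S) ∖ V(T)` over finite
extensions of `F` outside of `G = 0`; the number of places at which the point meets `V(T)` is the
truncated counting function. -/
def VojtaOff (k : Type) [Field k] [Algebra k F] (S : Set (MvPolynomial (Fin (n + 1)) F))
    (e : Fin r → ℕ) (T : Fin r → MvPolynomial (Fin (n + 1)) F) (G : MvPolynomial (Fin (n + 1)) F) :
    Prop :=
  ∃ c B : ℕ, ∀ (L : Type) [Field L] [Algebra k L] [Algebra F L] [IsScalarTower k F L]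
    [FiniteDimensional F L] (x : Fin (n + 1) → L), x ≠ 0 → (∀ p ∈ S, aeval x p = 0) →
    (∃ j, aeval x (T j) ≠ 0) → aeval x G ≠ 0 →
      pht k x ≤ c * (canDeg k L + {P : Place k L | Meets e T x P}.ncard) +
        B * Module.finrank F L

/-- `L` is the function field, and `y` the generic point in homogeneous coordinates, of a closed
subvariety of dimension `w` of `P^n` over `Ω`. -/
structure Subvariety (Ω L : Type) [Field Ω] [Field L] [Algebra Ω L] (w : ℕ) (y : Fin (n + 1) → L) :
    Prop where
  ne : y ≠ 0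
  gen : coords Ω y = ⊤
  dim : Algebra.trdeg Ω L = w

/-- The complement of `V(T)` in the closed subvariety with generic point `y` is of log general type. -/
def LogGT (Ω L : Type) [Field Ω] [Field L] [Algebra Ω L] (w : ℕ) (y : Fin (n + 1) → L)
    (e : Fin r → ℕ) (T : Fin r → MvPolynomial (Fin (n + 1)) Ω) : Prop :=
  LogGeneralType Ω L w fun P => Meets e T y P

/-- The form `G` over `Ω` vanishes on the closed subvarieties over `Ω` of positive dimension of
`V(S) ∖ V(T)` which are not of log general type. -/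
def OnSpecial (Ω : Type) [Field Ω] [Algebra F Ω] (S : Set (MvPolynomial (Fin (n + 1)) F))
    (e : Fin r → ℕ) (T : Fin r → MvPolynomial (Fin (n + 1)) F) (G : MvPolynomial (Fin (n + 1)) Ω) :
    Prop :=
  ∀ (L : Type) [Field L] [Algebra Ω L] (w : ℕ) (y : Fin (n + 1) → L), 1 ≤ w →
    Subvariety Ω L w y → (∀ p ∈ S, aeval y (map (algebraMap F Ω) p) = 0) →
    (∃ j, aeval y (map (algebraMap F Ω) (T j)) ≠ 0) →
    ¬ LogGT Ω L w y e (fun j => map (algebraMap F Ω) (T j)) → aeval y G = 0

/-- the forms over `F` which vanish at `y` -/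
def Eqs {K : Type} [Field K] [Algebra F K] (y : Fin (n + 1) → K) :
    Set (MvPolynomial (Fin (n + 1)) F) := {p | IsForm p ∧ aeval y p = 0}

/-- Q1 for all irreducible quasi-projective varieties over `F`, of positive dimension and of log general
type: the inequality holds outside of a proper closed subset `G = 0`. -/
def QuasiprojectiveVojta (k F : Type) [Field k] [Field F] [Algebra k F] : Prop :=
  ∀ (n r : ℕ) (e : Fin r → ℕ) (T : Fin r → MvPolynomial (Fin (n + 1)) F),
    (∀ j, (T j).IsHomogeneous (e j)) →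
    ∀ (K : Type) [Field K] [Algebra F K] (w : ℕ) (y : Fin (n + 1) → K), 1 ≤ w →
      Subvariety F K w y → (∃ j, aeval y (T j) ≠ 0) → LogGT F K w y e T →
      ∃ G : MvPolynomial (Fin (n + 1)) F, IsForm G ∧ aeval y G ≠ 0 ∧ VojtaOff k (Eqs y) e T G

/-- The closed subvariety with generic point `y` is an irreducible component of the exceptional set of
`{A = 0} ∖ V(T)`: it is contained in this set, and, on a neighbourhood `H' ≠ 0` of its generic point, it
contains this set. -/
def IsComponent (k : Type) [Field k] [Algebra k F] (A : MvPolynomial (Fin (n + 1)) F)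
    (e : Fin r → ℕ) (T : Fin r → MvPolynomial (Fin (n + 1)) F) {K : Type} [Field K] [Algebra F K]
    (y : Fin (n + 1) → K) : Prop :=
  (∀ G, IsForm G → VojtaOff k {A} e T G → aeval y G = 0) ∧
    ∃ H', IsForm H' ∧ aeval y H' ≠ 0 ∧
      ∀ G, IsForm G → aeval y G = 0 → VojtaOff k {A} e T (G * H')

/-- For all finite sets of forms `T`, no irreducible component of positive dimension of the exceptional
set of `{A = 0} ∖ V(T)` is of log general type. -/
def NoComponent (k : Type) [Field k] [Algebra k F] (A : MvPolynomial (Fin (n + 1)) F) : Prop :=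
  ∀ (r : ℕ) (e : Fin r → ℕ) (T : Fin r → MvPolynomial (Fin (n + 1)) F),
    (∀ j, (T j).IsHomogeneous (e j)) →
    ∀ (K : Type) [Field K] [Algebra F K] (w : ℕ) (y : Fin (n + 1) → K), 1 ≤ w →
      Subvariety F K w y → aeval y A = 0 → (∃ j, aeval y (T j) ≠ 0) → LogGT F K w y e T →
      ¬ IsComponent k A e T y

variable {N : ℕ} (m : Fin (N + 1) → Fin (n + 1) → ℕ)

/-- the form `G ∘ v` -/
noncomputable def pull {R : Type} [Field R] (G : MvPolynomial (Fin (N + 1)) R) :
    MvPolynomial (Fin (n + 1)) R :=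
  aeval (fun a => ∏ j, (X j : MvPolynomial (Fin (n + 1)) R) ^ m a j) G

variable (S : Set (MvPolynomial (Fin (n + 1)) F)) (A : MvPolynomial (Fin (N + 1)) F)

/-- (1) Vojta's inequality for the points of `A = 0` outside of `v(V(S))`, `A` of degree `D + 2`, with
the constant `C₁` -/
def HeightInequality (k : Type) [Field k] [Algebra k F] (D C₁ : ℕ) : Prop :=
  ∃ B : ℕ, ∀ (L : Type) [Field L] [Algebra k L] [Algebra F L] [IsScalarTower k F L]
    [FiniteDimensional F L] (y : Fin (N + 1) → L), y ≠ 0 → aeval y A = 0 →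
    D * pht k y ≤ C₁ * canDeg k L + B * Module.finrank F L ∨
      ∃ (x : Fin (n + 1) → L) (c : L), x ≠ 0 ∧ c ≠ 0 ∧ (∀ p ∈ S, aeval x p = 0) ∧
        y = c • veronese m x

/-- (2) the closed subvarieties of `A = 0` of positive dimension over algebraically closed extensions of
`F` are of general type, or of dimension at most `n` and contained in `v(V(S))` -/
def SubvarietiesGeneral : Prop :=
  ∀ (Ω : Type) [Field Ω] [Algebra F Ω] [IsAlgClosed Ω] (L : Type) [Field L] [Algebra Ω L]
    (w : ℕ) (y : Fin (N + 1) → L), 1 ≤ w → Subvariety Ω L w y →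
    aeval y (map (algebraMap F Ω) A) = 0 → LogGeneralType Ω L w (fun _ => False) ∨
      w ≤ n ∧ ∃ (x : Fin (n + 1) → L) (c : L), x ≠ 0 ∧ c ≠ 0 ∧
        (∀ p ∈ S, aeval x (map (algebraMap F Ω) p) = 0) ∧ y = c • veronese m x

end defs

section proof

open Pool.Agent.N254.SQ (Mon ver t_num pullR reduce zb_pull t_zsurj)
open Pool.Agent.W2helper39.FV (consP transP trans_specP canDeg_lower hits_iff hits_pow coords_verK
  ver_ne power_homF OffT)

/-- generic points of positive dimension -/
theorem one_le {Ω L : Type} [Field Ω] [Field L] [Algebra Ω L] {n w : ℕ} {y : Fin (n + 1) → L}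
    (hw : 1 ≤ w) (h : Subvariety Ω L w y) : 1 ≤ n := by
  by_contra hn
  have hn0 : n = 0 := by omega
  subst hn0
  have h1 : coords Ω y ≤ ⊥ := by
    unfold coords
    rw [IntermediateField.adjoin_le_iff]
    rintro z ⟨i, j, hj, rfl⟩
    have : i = j := Fin.ext (by omega)
    rw [this, div_self hj]
    exact one_mem _
  rw [h.gen, top_le_iff] at h1
  have h2 : Algebra.IsAlgebraic Ω L := ⟨fun z => by
    have h3 : z ∈ (⊥ : IntermediateField Ω L) := by
      rw [h1]
      exact IntermediateField.mem_top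
    obtain ⟨c, hc⟩ := IntermediateField.mem_bot.1 h3
    rw [← hc]
    exact isAlgebraic_algebraMap c⟩
  have h3 := h.dim
  rw [_root_.trdeg_eq_zero] at h3
  have : w = 0 := by exact_mod_cast h3.symm
  omega

/-- a larger slope -/
theorem mono {h χ ν f : ℤ} {Bc c B c' B' : ℕ} (hf0 : 0 ≤ f) (hBc : -(Bc * f) ≤ χ) (hν : 0 ≤ ν)
    (hc : c ≤ c') (hB : B ≤ B') (hh : h ≤ c * (χ + ν) + B * f) :
    h ≤ c' * (χ + ν) + (B' + c' * Bc : ℕ) * f := by
  have h2 : 0 ≤ χ + ν + Bc * f := by linarith
  have hc' : (c : ℤ) ≤ c' := by exact_mod_cast hc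
  have hB' : (B : ℤ) ≤ B' := by exact_mod_cast hB
  have h3 := mul_le_mul_of_nonneg_right hc' h2
  have h4 := mul_le_mul_of_nonneg_right hB' hf0
  have h5 : 0 ≤ (c : ℤ) * (Bc * f) := by positivity
  push_cast
  linarith

/-- Q1 for the closures of the components -/
theorem forward {k F : Type} [Field k] [IsAlgClosed k] [CharZero k] [Field F] [Algebra k F]
    [IsFF k F] (hQ : QuasiprojectiveVojta k F) {N : ℕ} (A : MvPolynomial (Fin (N + 1)) F) :
    NoComponent k A := by
  classical
  intro r e T hT K _ _ w y hw hy hyA hyT hlog hcomp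
  obtain ⟨G, ⟨g, hG⟩, hGy, cG, BG, hGV⟩ := hQ N r e T hT K w y hw hy hyT hlog
  obtain ⟨hc1, H', ⟨h', hH'⟩, hH'y, hc2⟩ := hcomp
  obtain ⟨Bc, hBc⟩ := canDeg_lower k F
  obtain ⟨T', hT', hTE⟩ := reduce (Eqs (F := F) y)
  have hT2 : ∀ p : T', ∃ c B : ℕ, ∀ (L : Type) [Field L] [Algebra k L] [Algebra F L]
      [IsScalarTower k F L] [FiniteDimensional F L] (x : Fin (N + 1) → L), x ≠ 0 →
      (∀ p ∈ ({A} : Set (MvPolynomial (Fin (N + 1)) F)), aeval x p = 0) →
      (∃ j, aeval x (T j) ≠ 0) → aeval x ((p : MvPolynomial (Fin (N + 1)) F) * H') ≠ 0 →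
      pht k x ≤ c * (canDeg k L + {P : Place k L | Meets e T x P}.ncard) +
        B * Module.finrank F L := fun p =>
    hc2 p (hT' p.2).1 (hT' p.2).2
  choose c B hcB using hT2
  have key : VojtaOff k {A} e T (G * H') := by
    refine ⟨cG + ∑ p, c p, (BG + ∑ p, B p) + (cG + ∑ p, c p) * Bc,
      fun L _ _ _ _ _ x hx hx0 hxA hxG => ?_⟩
    rw [map_mul] at hxG
    by_cases hall : ∀ p : T', aeval x (p : MvPolynomial (Fin (N + 1)) F) = 0
    · have h1 : ∀ p ∈ Eqs (F := F) y, aeval x p = 0 := by
        intro p hp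
        have h2 := hTE L (algebraMap F L) x (fun p hp => by
          rw [eval_map]
          exact hall ⟨p, hp⟩) p hp
        rw [eval_map] at h2
        exact h2
      exact mono (by positivity) (hBc L) (by positivity) (Nat.le_add_right _ _)
        (Nat.le_add_right _ _) (hGV L x hx h1 hxA (left_ne_zero_of_mul hxG))
    · push Not at hall
      obtain ⟨p, hp⟩ := hall
      have h1 := hcB p L x hx hx0 hxA (by
        rw [map_mul]
        exact mul_ne_zero hp (right_ne_zero_of_mul hxG))
      exact mono (by positivity) (hBc L) (by positivity)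
        ((Finset.single_le_sum (f := c) (fun _ _ => Nat.zero_le _)
        (Finset.mem_univ p)).trans (Nat.le_add_left _ _))
        ((Finset.single_le_sum (f := B) (fun _ _ => Nat.zero_le _)
        (Finset.mem_univ p)).trans (Nat.le_add_left _ _)) h1
  have h1 := hc1 (G * H') ⟨_, hG.mul hH'⟩ key
  rw [map_mul] at h1
  exact mul_ne_zero hGy hH'y h1

/-- the properties of the construction -/
def ConsAll (D₁ C₁ : ℕ → ℕ) : Prop :=
  ∀ N : ℕ, 1 ≤ N → ∀ (n d : ℕ), 1 ≤ n → 3 ≤ d →
    ∀ (m : Fin (N + 1) → Fin (n + 1) → ℕ), Mon n N d m → 2 * n < N →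
      ∀ D, D₁ N ≤ D → ∀ (F : Type) [Field F] [CharZero F] (S : Set (MvPolynomial (Fin (n + 1)) F)),
        (∀ p ∈ S, ∃ e ≤ d, p.IsHomogeneous e) →
        ∃ Q : Fin (N * (2 * N + 1)) → MvPolynomial (Fin (N + 1)) F,
          (∀ t, (Q t).IsHomogeneous 2) ∧ SmoothOver (powerFormOver D Q) ∧
          (∀ (Ω : Type) [Field Ω] [Algebra F Ω] (x : Fin (n + 1) → Ω), (∀ p ∈ S, aeval x p = 0) →
            aeval (veronese m x) (powerFormOver D Q) = 0) ∧
          (∀ (k : Type) [Field k] [IsAlgClosed k] [CharZero k] [Algebra k F] [IsFF k F],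
            HeightInequality m S (powerFormOver D Q) k D (C₁ N)) ∧
          SubvarietiesGeneral m S (powerFormOver D Q)

theorem consAll : ∃ D₁ C₁ : ℕ → ℕ, (∀ N, N ≤ D₁ N ∧ 1 ≤ D₁ N) ∧ ConsAll D₁ C₁ := by
  classical
  choose D₀ C₀ h0 using consP
  refine ⟨fun N => if h : 1 ≤ N then max (D₀ N h) N else 1,
    fun N => if h : 1 ≤ N then C₀ N h else 0, fun N => ?_, fun N hN => ?_⟩
  · by_cases h : 1 ≤ N
    · simp only [h, dif_pos]
      exact ⟨le_max_right _ _, h.trans (le_max_right _ _)⟩
    · simp only [h, dif_neg, not_false_iff]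
      omega
  · simp only [hN, dif_pos]
    intro n d hn hd m hm hNn D hD F _ _ S hS
    obtain ⟨Q, hQ, hsm, hAH, hpts, hsub⟩ := h0 N hN n d hn hd m hm hNn D
      ((le_max_left _ _).trans hD) F S hS
    refine ⟨Q, hQ, hsm, hAH, fun k _ _ _ _ _ => hpts k,
      fun Ω _ _ _ L _ _ w y hw hy hA => ?_⟩
    rcases hsub Ω L w y hw hy.ne hy.gen hy.dim hA with h | ⟨x, c, hx, hc, hxS, rfl⟩
    · exact Or.inl h
    · refine Or.inr ⟨Pool.Agent.W602.GT.dim_le (k := Ω) hx ⟨fun z => ?_⟩ hy.dim, x, c, hx, hc, hxS,
        rfl⟩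
      have h1 := hy.gen
      rw [coords_verK (Ω := Ω) hm (by omega) x hx c hc] at h1
      have h2 : z ∈ coords Ω x := by
        rw [h1]
        exact IntermediateField.mem_top
      exact isAlgebraic_algebraMap (⟨z, h2⟩ : coords Ω x)

theorem pull_form {R : Type} [Field R] {n N d e : ℕ} {m : Fin (N + 1) → Fin (n + 1) → ℕ}
    (hm : Mon n N d m) {G : MvPolynomial (Fin (N + 1)) R} (hG : G.IsHomogeneous e) :
    (pull m G).IsHomogeneous (d * e) := by
  refine hG.aeval _ fun a => ?_
  have h1 : (∏ j, (X j : MvPolynomial (Fin (n + 1)) R) ^ m a j).IsHomogeneous (∑ j, 1 * m a j) :=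
    IsHomogeneous.prod _ _ _ fun j _ => (isHomogeneous_X R j).pow _
  simp only [one_mul] at h1
  rwa [hm.deg] at h1

/-- from the hypersurfaces to the quasi-projective varieties -/
theorem backward {D₁ C₁ : ℕ → ℕ} (HC : ConsAll D₁ C₁) (hD₁ : ∀ N, 1 ≤ D₁ N) {k F : Type} [Field k]
    [IsAlgClosed k] [CharZero k] [Field F] [Algebra k F] [IsFF k F] {E : Set ℕ} (hE : E.Infinite)
    (h : ∀ (N D : ℕ) (Q : Fin (N * (2 * N + 1)) → MvPolynomial (Fin (N + 1)) F), D ∈ E →
      D₁ N ≤ D → (∀ t, (Q t).IsHomogeneous 2) → SmoothOver (powerFormOver D Q) →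
      NoComponent k (powerFormOver D Q)) : QuasiprojectiveVojta k F := by
  classical
  have hcF : CharZero F := charZero_of_injective_algebraMap (algebraMap k F).injective
  intro n r e T hTh K _ _ w y hw hy hyT hlog
  have hn := one_le hw hy
  obtain ⟨T', hT', hTE⟩ := reduce (Eqs (F := F) y)
  have hTE' : ∀ (L : Type) [Field L] [Algebra F L] (x : Fin (n + 1) → L),
      (∀ p ∈ (T' : Set (MvPolynomial (Fin (n + 1)) F)), aeval x p = 0) →
      ∀ p ∈ Eqs (F := F) y, aeval x p = 0 := by
    intro L _ _ x hx p hp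
    have h2 := hTE L (algebraMap F L) x (fun p hp => by
      rw [eval_map]
      exact hx p hp) p hp
    rw [eval_map] at h2
    exact h2
  have hT2 : ∀ p : T', ∃ g, (p : MvPolynomial (Fin (n + 1)) F).IsHomogeneous g := fun p =>
    (hT' p.2).1
  choose g hg using hT2
  obtain ⟨d, hd⟩ : ∃ d, d = (∑ p, g p) + 3 := ⟨_, rfl⟩
  have hd1 : 1 ≤ d := by omega
  obtain ⟨N, m, hm, hN⟩ := t_num n d hn (by omega)
  obtain ⟨D, hDE, hD⟩ := hE.exists_gt (D₁ N)
  have hDD : D₁ N ≤ D := le_of_lt hD
  obtain ⟨Q, hQ, hsm, hAH, hpts, -⟩ := HC N (by omega) n d hn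
    (by omega) m hm hN D hDD F T' (fun p hp => ⟨g ⟨p, hp⟩, by
      have h1 : g ⟨p, hp⟩ ≤ ∑ p, g p :=
        Finset.single_le_sum (f := g) (fun _ _ => Nat.zero_le _) (Finset.mem_univ _)
      omega, hg ⟨p, hp⟩⟩)
  obtain ⟨A, hA⟩ : ∃ A, A = powerFormOver D Q := ⟨_, rfl⟩
  have hno := h N D Q hDE hDD hQ hsm
  rw [← hA] at hAH hno
  have hpts' := hpts k
  rw [← hA] at hpts'
  -- the boundary
  have hbd : ∀ j, ∃ T₁ : MvPolynomial (Fin (N + 1)) F, T₁.IsHomogeneous (e j) ∧
      pullR m T₁ = T j ^ d := fun j => t_zsurj F n N d m hm (e j) (T j ^ d) (by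
    have := (hTh j).pow d
    rwa [mul_comm] at this)
  choose T₁ hT₁ hT₁p using hbd
  have hmeet : ∀ {K' E' : Type} [Field K'] [Field E'] [Algebra F E'] [Algebra K' E']
      (x : Fin (n + 1) → E') (P : Place K' E'),
      (Meets (fun j => d * e j) (fun j => pullR m (T₁ j)) x P ↔ Meets e T x P) := by
    intro K' E' _ _ _ _ x P
    simp only [hT₁p]
    exact hits_pow hd1 P
  have hne : ∀ {E' : Type} [Field E'] [Algebra F E'] (x : Fin (n + 1) → E') (j : Fin r),
      (aeval x (pullR m (T₁ j)) ≠ 0 ↔ aeval x (T j) ≠ 0) := by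
    intro E' _ _ x j
    rw [hT₁p, map_pow]
    exact pow_ne_zero_iff (by omega)
  have htr : ∀ {G : MvPolynomial (Fin (N + 1)) F} {g' : ℕ}, G.IsHomogeneous g' →
      (VojtaOff k {A} e T₁ G ↔ VojtaOff k (T' : Set (MvPolynomial (Fin (n + 1)) F)) e T
        (pull m G)) := by
    intro G g' hG
    have h1 := transP (k := k) hm hd1 hAH ((hD₁ N).trans hDD) hpts' hT₁ hG
    constructor
    · intro h2
      obtain ⟨c, B, h3⟩ := h1.1 h2
      refine ⟨c, B, fun L _ _ _ _ _ x hx hxS hxT hxG => ?_⟩
      obtain ⟨j, hj⟩ := hxT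
      have h4 := h3 L x hx hxS ⟨j, (hne x j).2 hj⟩ hxG
      have h5 : {P : Place k L | Meets e T x P} =
          {P : Place k L | Meets (fun j => d * e j) (fun j => pullR m (T₁ j)) x P} := by
        ext P
        exact (hmeet x P).symm
      rw [h5]
      exact h4
    · rintro ⟨c, B, h3⟩
      refine h1.2 ⟨c, B, fun L _ _ _ _ _ x hx hxS hxT hxG => ?_⟩
      obtain ⟨j, hj⟩ := hxT
      have h4 := h3 L x hx hxS ⟨j, (hne x j).1 hj⟩ hxG
      have h5 : {P : Place k L | Meets e T x P} =
          {P : Place k L | Meets (fun j => d * e j) (fun j => pullR m (T₁ j)) x P} := by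
        ext P
        exact (hmeet x P).symm
      rw [h5] at h4
      exact h4
  have hyT' : ∀ p ∈ (T' : Set (MvPolynomial (Fin (n + 1)) F)), aeval y p = 0 := fun p hp =>
    (hT' hp).2
  have hev : ∀ G : MvPolynomial (Fin (N + 1)) F,
      aeval y (pull m G) = aeval (veronese m y) G := fun G => zb_pull (algebraMap F K) m G y
  obtain ⟨z, hz⟩ : ∃ z, z = veronese m y := ⟨_, rfl⟩
  have hzA : aeval z A = 0 := by
    rw [hz]
    exact hAH K y hyT'
  have hzs : Subvariety F K w z := by
    refine ⟨by rw [hz]; exact ver_ne hm hy.ne, ?_, hy.dim⟩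
    have h1 := coords_verK (Ω := F) hm hd1 y hy.ne 1 one_ne_zero
    rw [one_smul] at h1
    rw [hz, ← hy.gen]
    exact h1
  have hzT : ∃ j, aeval z (T₁ j) ≠ 0 := by
    obtain ⟨j, hj⟩ := hyT
    refine ⟨j, ?_⟩
    have h1 := (hne y j).2 hj
    change aeval y (pull m (T₁ j)) ≠ 0 at h1
    rw [hev, ← hz] at h1
    exact h1
  have hzlog : LogGT F K w z e T₁ := by
    have h1 : (fun P : Place F K => Meets e T₁ z P) = fun P : Place F K => Meets e T y P := by
      funext P
      have h2 := hits_iff hm hT₁ hy.ne (one_ne_zero (α := K)) P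
      rw [one_smul] at h2
      rw [hz]
      exact propext (h2.trans (hmeet y P))
    unfold LogGT
    rw [h1]
    exact hlog
  by_cases hex : ∃ G : MvPolynomial (Fin (N + 1)) F, IsForm G ∧ VojtaOff k {A} e T₁ G ∧
      aeval z G ≠ 0
  · obtain ⟨G, ⟨g', hG⟩, hGV, hGz⟩ := hex
    refine ⟨pull m G, ⟨_, pull_form hm hG⟩, by rw [hev, ← hz]; exact hGz, ?_⟩
    obtain ⟨c, B, h2⟩ := (htr hG).1 hGV
    exact ⟨c, B, fun L _ _ _ _ _ x hx hxS hxH hxG =>
      h2 L x hx (fun p hp => hxS p (hT' hp)) hxH hxG⟩
  · exfalso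
    push Not at hex
    refine hno r e T₁ hT₁ K w z hw hzs hzA hzT hzlog ⟨fun G hG hV => hex G hG hV, 1,
      ⟨0, isHomogeneous_one _ _⟩, by rw [map_one]; exact one_ne_zero, fun G hG hGz => ?_⟩
    obtain ⟨g', hG⟩ := hG
    rw [mul_one]
    refine (htr hG).2 ⟨0, 0, fun L _ _ _ _ _ x _ hxS _ hxG => absurd (hTE' L x hxS _
      ⟨⟨_, pull_form hm hG⟩, ?_⟩) hxG⟩
    rw [hev, ← hz]
    exact hGz

end proof

theorem result : ∃ D₁ C₁ : ℕ → ℕ, (∀ N, N ≤ D₁ N) ∧
    (∀ n d : ℕ, 1 ≤ n → 3 ≤ d → ∃ (N : ℕ) (m : Fin (N + 1) → Fin (n + 1) → ℕ),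
      Monomials n N d m ∧ 2 * n < N ∧ ∀ (k F : Type) [Field k] [IsAlgClosed k] [CharZero k]
        [Field F] [Algebra k F] [IsFF k F] (D : ℕ), D₁ N ≤ D →
        ∀ S : Set (MvPolynomial (Fin (n + 1)) F), (∀ p ∈ S, ∃ e ≤ d, p.IsHomogeneous e) →
        ∃ Q : Fin (N * (2 * N + 1)) → MvPolynomial (Fin (N + 1)) F,
          (∀ t, (Q t).IsHomogeneous 2) ∧ SmoothOver (powerFormOver D Q) ∧
          (∀ (Ω : Type) [Field Ω] [Algebra F Ω] (x : Fin (n + 1) → Ω), (∀ p ∈ S, aeval x p = 0) →
            aeval (veronese m x) (powerFormOver D Q) = 0) ∧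
          HeightInequality m S (powerFormOver D Q) k D (C₁ N) ∧
          SubvarietiesGeneral m S (powerFormOver D Q) ∧
          ∀ (r : ℕ) (e : Fin r → ℕ) (T : Fin r → MvPolynomial (Fin (N + 1)) F),
            (∀ j, (T j).IsHomogeneous (e j)) →
            (∀ G : MvPolynomial (Fin (N + 1)) F, IsForm G →
              (VojtaOff k {powerFormOver D Q} e T G ↔
                VojtaOff k S (fun j => d * e j) (fun j => pull m (T j)) (pull m G))) ∧
            ∀ (Ω : Type) [Field Ω] [Algebra F Ω] [IsAlgClosed Ω]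
              (G : MvPolynomial (Fin (N + 1)) Ω), IsForm G →
              (OnSpecial Ω {powerFormOver D Q} e T G ↔
                OnSpecial Ω S (fun j => d * e j) (fun j => pull m (T j)) (pull m G))) ∧
    ∀ (k F : Type) [Field k] [IsAlgClosed k] [CharZero k] [Field F] [Algebra k F] [IsFF k F]
      (E : Set ℕ), E.Infinite →
      (QuasiprojectiveVojta k F ↔
        ∀ (N D : ℕ) (Q : Fin (N * (2 * N + 1)) → MvPolynomial (Fin (N + 1)) F), D ∈ E →
          D₁ N ≤ D → (∀ t, (Q t).IsHomogeneous 2) → SmoothOver (powerFormOver D Q) →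
          NoComponent k (powerFormOver D Q)) := by
  obtain ⟨D₁, C₁, hD₁, HC⟩ := consAll
  refine ⟨D₁, C₁, fun N => (hD₁ N).1, fun n d hn hd => ?_, fun k F _ _ _ _ _ _ E hE =>
    ⟨fun hQ N D Q _ _ _ _ => forward hQ _, fun h => backward HC (fun N => (hD₁ N).2) hE h⟩⟩
  obtain ⟨N, m, hm, hN⟩ := Pool.Agent.N254.SQ.t_num n d hn hd
  refine ⟨N, m, ⟨hm.deg, hm.inj, hm.surj⟩, hN, ?_⟩
  intro k F _ _ _ _ _ _ D hD S hS
  have hcF : CharZero F := charZero_of_injective_algebraMap (algebraMap k F).injective
  obtain ⟨Q, hQ, hsm, hAH, hpts, hsub⟩ := HC N (by omega) n d hn hd m hm hN D hD F S hS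
  have hd1 : 1 ≤ d := by omega
  refine ⟨Q, hQ, hsm, hAH, hpts k, hsub, fun r e T hT => ⟨?_, ?_⟩⟩
  · rintro G ⟨g, hG⟩
    exact Pool.Agent.W2helper39.FV.transP (k := k) hm hd1 hAH ((hD₁ N).2.trans hD) (hpts k) hT hG
  · rintro Ω _ _ _ G ⟨g, hG⟩
    have h1 := Pool.Agent.W2helper39.FV.trans_specP hm hd1 hAH
      (fun Ω _ _ _ L _ _ w y hw hy0 hgen hdim hA =>
        (hsub Ω L w y hw ⟨hy0, hgen, hdim⟩ hA).imp id fun h => h.2) hT Ω hG
    constructor
    · intro h L _ _ w y hw hy hyS hyH hyL
      exact h1.1 (fun L _ _ w y hw hy0 hgen hdim hyS hyA hyl =>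
        h L w y hw ⟨hy0, hgen, hdim⟩ hyS hyA hyl) L w y hw hy.ne hy.gen hy.dim hyS hyH hyL
    · intro h L _ _ w y hw hy hyS hyA hyL
      exact h1.2 (fun L _ _ w y hw hy0 hgen hdim hyS hyA hyl =>
        h L w y hw ⟨hy0, hgen, hdim⟩ hyS hyA hyl) L w y hw hy.ne hy.gen hy.dim hyS hyA hyL

end Pool.Agent.Results.MP_4dacf8_ag.SmoothHypersurfaces
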