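import Mathlib
import Pool.Agent.W2helper39.VF.Fam

/-!
# MP_4dacf8_ag: Vojta's inequality over function fields, uniformly in families of pairs of log general
# type, for points of bounded complexity

The coordinates are the parameters `s` and the projective coordinates `x`; `G`, `Q` are polynomials in
`s` and `x` with complex coefficients, and `{F = 0, R ≠ 0}` is a locally closed set in the space of the
parameters, the base. For all points `s` of the base over `ℂ` we assume that `G (s, ·) = 0` is a smooth
irreducible projective variety `X_s` of dimension `N`, that the zero set `D_s` of the form `Q (s, ·)` on
`X_s` is a divisor with strict normal crossings, and that `X_s - D_s` is nonempty and of log general type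
(`GeneralTypePair`).

Let `K` be a function field of one variable over `ℂ` and `s` a point of the base over `K`, so that
`(X_s, D_s)` is a pair over `K`, in general not isotrivial. We consider all points `x` of `X_s` over all
finite extensions `L` of `K`, outside an exceptional set `H (s, ·) = 0`, whose projective coordinates are
sums of `m` terms `a u`, `a` in `L` and `u` in `L` with all orders outside a finite set `S` of places
divisible by a number `N ≥ N₀`, and `Q (s, x) = q v ≠ 0`, `v` as the `u` (`IsPoint`). For instance, `a`
and `q` are zeros and ones, and `u` and `v` are units outside `S`, where `S` consists of the places at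
which `x` meets `D_s` and of those over a finite set of places of `K`. `VojtaAt` is the inequality

`h(x) ≤ C (max (2 g - 2 + #S, 0) + [L : K] ∑ h(s j) + ∑ h(a) + h(q))`,

where `h(s j)` is relative to `K` and the other heights are relative to `L`, and `g` is the genus of `L`.
`UniformVojta`: the constants `N₀` and `C` are the same for all `K` and `s`, and the exceptional set is
given by one of finitely many polynomials `H i`.
-/

set_option autoImplicit false

namespace Pool.Agent.Results.MP_4dacf8_ag.UniformFamilies

open MvPolynomial
open Pool.Agent.W2helper39.FB (OnBase GeneralTypePair fib)
open Pool.Agent.W2helper39.VF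

/-- Let all fibres `X_s - D_s` over the points `s` of the base `{F = 0, R ≠ 0}` over `ℂ` be of log
general type, `X_s = {G (s, ·) = 0}` smooth projective, `D_s = {Q (s, ·) = 0}` with strict normal
crossings. For every `m` Vojta's inequality, for the points of complexity `m`, holds for the pairs
`(X_s, D_s)` for all points `s` of the base over all function fields `K`, with the same constant and an
error term which is linear in the height of `s`, outside of exceptional sets which are given by
finitely many polynomials `H i`. -/
theorem result (m f r N c g : ℕ) (G : Fin g → MvPolynomial (Fin r ⊕ Fin (N + 1 + c)) ℂ)
    (Q : MvPolynomial (Fin r ⊕ Fin (N + 1 + c)) ℂ) (F : Fin f → MvPolynomial (Fin r) ℂ)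
    (R : MvPolynomial (Fin r) ℂ)
    (h : ∀ s : Fin r → ℂ, OnBase F R s → GeneralTypePair N (fun j => fib s (G j)) (fib s Q)) :
    UniformVojta m G Q F R :=
  uniform_vojta m G Q F R h

end Pool.Agent.Results.MP_4dacf8_ag.UniformFamilies
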